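import Pool.Agent.W886.VL.Stm

/-!
# Arithmetic inside the structures: iteration, pairing, recursively enumerable sets (helper402)
-/

set_option autoImplicit false
set_option linter.unusedVariables false

namespace Pool.Agent.W402.VL.Rec

open SOCat (cons)
open ZFSet (pair omega)
open Pool.Agent.W886.VL

theorem num_zero : num 0 = ∅ := rfl
theorem num_succ (n : ℕ) : num (n + 1) = insert (num n) (num n) := rfl

theorem Base.num_mem {A : ZFSet.{0}} (h : Base A) (n : ℕ) : num n ∈ A :=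
  h.tr _ h.om (num_mem_omega n)

theorem Base.pair_mem {A a b : ZFSet.{0}} (h : Base A) (ha : a ∈ A) (hb : b ∈ A) :
    pair a b ∈ A := by
  have h1 : ({a} : ZFSet) ∈ A := by
    have := h.pr a ha a ha
    rwa [ZFSet.pair_eq_singleton] at this
  exact h.pr _ h1 _ (h.pr a ha b hb)

/-- the finite graph of a sequence of numbers -/
theorem exists_graph {A : ZFSet.{0}} (h : Base A) (u : ℕ → ℕ) (n : ℕ) :
    ∃ f ∈ A, ∀ p : ZFSet.{0}, p ∈ f ↔ ∃ i ≤ n, p = pair (num i) (num (u i)) := by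
  induction n with
  | zero =>
    refine ⟨{pair (num 0) (num (u 0))}, ?_, ?_⟩
    · have hp := Base.pair_mem h (Base.num_mem h 0) (Base.num_mem h (u 0))
      have := h.pr _ hp _ hp
      rwa [ZFSet.pair_eq_singleton] at this
    · intro p
      rw [ZFSet.mem_singleton]
      constructor
      · rintro rfl; exact ⟨0, le_rfl, rfl⟩
      · rintro ⟨i, hi, rfl⟩
        obtain rfl : i = 0 := by omega
        rfl
  | succ n ih =>
    obtain ⟨f, hf, hp⟩ := ih
    have hq := Base.pair_mem h (Base.num_mem h (n + 1)) (Base.num_mem h (u (n + 1)))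
    have hs := h.pr _ hq _ hq
    rw [ZFSet.pair_eq_singleton] at hs
    refine ⟨_, h.un f hf _ hs, ?_⟩
    intro p
    rw [ZFSet.mem_union, hp, ZFSet.mem_singleton]
    constructor
    · rintro (⟨i, hi, rfl⟩ | rfl)
      · exact ⟨i, by omega, rfl⟩
      · exact ⟨n + 1, le_rfl, rfl⟩
    · rintro ⟨i, hi, rfl⟩
      rcases Nat.lt_or_ge i (n + 1) with h1 | h1
      · exact Or.inl ⟨i, by omega, rfl⟩
      · obtain rfl : i = n + 1 := by omega
        exact Or.inr rfl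

/-- renaming for two variables -/
def g2 (i j : ℕ) : ℕ → ℕ
  | 0 => i
  | 1 => j
  | n + 2 => n

/-- renaming for three variables -/
def g3 (i j k : ℕ) : ℕ → ℕ
  | 0 => i
  | 1 => j
  | 2 => k
  | n + 3 => n

/-- renaming for four variables -/
def g4 (i j k l : ℕ) : ℕ → ℕ
  | 0 => i
  | 1 => j
  | 2 => k
  | 3 => l
  | n + 4 => n

theorem rec' : T_REC := by
  intro Z S hZ hS
  refine ((d_om 0).and ((d_om 1).and ((d_om 2).and
    (((((((d_num 0 0).and (d_app 0 1 2)).ex).and (hZ.ren (g2 2 0))).exOm).and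
      ((((((d_app 2 1 3).imp ((d_app 2 0 3).imp (Dfn.eq 1 0))).allOm).allOm).allOm).and
      ((((Dfn.mem 0 3).imp (((((d_app 2 1 3).and
        ((((d_insert 0 3 3).and (d_app 0 1 4)).ex).and (hS.ren (g4 4 2 1 0)))).exOm).exOm))).allOm).and
        (d_app 2 3 0)))).ex)))).congr ?_
  intro A hA v hv
  show (v 0 ∈ omega ∧ v 1 ∈ omega ∧ v 2 ∈ omega ∧ ∃ f ∈ A,
    (∃ m0 : ℕ, (∃ e ∈ A, e = num 0 ∧ pair e (num m0) ∈ f) ∧
      (∃ a m, v 0 = num a ∧ num m0 = num m ∧ Z a m)) ∧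
    (∀ i m m' : ℕ, pair (num i) (num m) ∈ f → pair (num i) (num m') ∈ f → num m = num m') ∧
    (∀ i : ℕ, num i ∈ v 1 → ∃ m m' : ℕ, pair (num i) (num m) ∈ f ∧
      (∃ s ∈ A, s = insert (num i) (num i) ∧ pair s (num m') ∈ f) ∧
      (∃ a i' m1 m1', v 0 = num a ∧ num i = num i' ∧ num m = num m1 ∧ num m' = num m1' ∧
        S a i' m1 m1')) ∧
    pair (v 1) (v 2) ∈ f) ↔ _
  constructor
  · rintro ⟨h0, h1, h2, f, hf, ⟨m0, ⟨e, he, rfl, hm0⟩, a, m, hva, hmm, hZam⟩, hfun, hstep, hend⟩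
    obtain ⟨n, hn⟩ := mem_omega.1 h1
    obtain ⟨mm, hmmv⟩ := mem_omega.1 h2
    rw [num_inj] at hmm
    subst hmm
    classical
    refine ⟨a, n, mm, hva, hn, hmmv, fun i => if h : ∃ m, pair (num i) (num m) ∈ f then h.choose
      else 0, ?_, ?_, ?_⟩
    · have h : ∃ m, pair (num 0) (num m) ∈ f := ⟨m0, hm0⟩
      show Z a (if h : ∃ m, pair (num 0) (num m) ∈ f then h.choose else 0)
      rw [dif_pos h]
      have := num_inj.1 (hfun 0 _ _ h.choose_spec hm0)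
      rw [this]
      exact hZam
    · intro i hi
      obtain ⟨m, m', hm, ⟨s, hs, rfl, hm'⟩, a', i', m1, m1', e1, e2, e3, e4, hSS⟩ :=
        hstep i (by rw [hn]; exact num_mem_num.2 hi)
      rw [num_inj] at e2 e3 e4
      subst e2 e3 e4
      rw [hva, num_inj] at e1
      subst e1
      have hh : ∃ m, pair (num i) (num m) ∈ f := ⟨m, hm⟩
      have hh' : ∃ m, pair (num (i + 1)) (num m) ∈ f := ⟨m', hm'⟩
      show S a i (if h : ∃ m, pair (num i) (num m) ∈ f then h.choose else 0)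
        (if h : ∃ m, pair (num (i + 1)) (num m) ∈ f then h.choose else 0)
      rw [dif_pos hh, dif_pos hh', num_inj.1 (hfun i _ _ hh.choose_spec hm),
        num_inj.1 (hfun (i + 1) _ _ hh'.choose_spec hm')]
      exact hSS
    · rw [hn, hmmv] at hend
      have hh : ∃ m, pair (num n) (num m) ∈ f := ⟨mm, hend⟩
      show (if h : ∃ m, pair (num n) (num m) ∈ f then h.choose else 0) = mm
      rw [dif_pos hh]
      exact num_inj.1 (hfun n _ _ hh.choose_spec hend)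
  · rintro ⟨a, n, m, h0, h1, h2, u, hZu, hSu, hun⟩
    refine ⟨by rw [h0]; exact num_mem_omega _, by rw [h1]; exact num_mem_omega _,
      by rw [h2]; exact num_mem_omega _, ?_⟩
    obtain ⟨f, hf, hp⟩ := exists_graph hA u n
    have hin : ∀ i m, pair (num i) (num m) ∈ f ↔ i ≤ n ∧ m = u i := by
      intro i m
      rw [hp]
      constructor
      · rintro ⟨j, hj, e⟩
        rw [ZFSet.pair_inj, num_inj, num_inj] at e
        obtain ⟨rfl, rfl⟩ := e
        exact ⟨hj, rfl⟩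
      · rintro ⟨h, rfl⟩
        exact ⟨i, h, rfl⟩
    refine ⟨f, hf, ?_, ?_, ?_, ?_⟩
    · exact ⟨u 0, ⟨num 0, Base.num_mem hA 0, rfl, (hin 0 _).2 ⟨Nat.zero_le _, rfl⟩⟩, a, u 0, h0,
        rfl, hZu⟩
    · intro i m m' hm hm'
      rw [((hin i m).1 hm).2, ((hin i m').1 hm').2]
    · intro i hi
      rw [h1, num_mem_num] at hi
      exact ⟨u i, u (i + 1), (hin i _).2 ⟨hi.le, rfl⟩, ⟨num (i + 1), Base.num_mem hA _, rfl,
        (hin (i + 1) _).2 ⟨hi, rfl⟩⟩, a, i, u i, u (i + 1), h0, rfl, rfl, rfl, hSu i hi⟩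
    · rw [h1, h2]
      exact (hin n m).2 ⟨le_rfl, hun.symm⟩

/-! ### arithmetic -/

theorem d_addc : Dfn Base (fun _ v => ∃ a b, v 0 = num a ∧ v 1 = num b ∧ v 2 = num (a + b)) := by
  refine (rec' (fun a m => m = a) (fun _ _ m m' => m' = m + 1)
    (((d_om 0).and (Dfn.eq 1 0)).congr ?_)
    (((d_om 0).and ((d_om 1).and ((d_om 2).and (d_insert 3 2 2)))).congr ?_)).congr ?_
  · intro A hA v hv
    constructor
    · rintro ⟨h1, h2⟩
      obtain ⟨a, ha⟩ := mem_omega.1 h1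
      exact ⟨a, a, ha, h2.trans ha, rfl⟩
    · rintro ⟨a, m, h1, h2, rfl⟩
      exact ⟨by rw [h1]; exact num_mem_omega _, h2.trans h1.symm⟩
  · intro A hA v hv
    constructor
    · rintro ⟨h0, h1, h2, h3⟩
      obtain ⟨a, ha⟩ := mem_omega.1 h0
      obtain ⟨i, hi⟩ := mem_omega.1 h1
      obtain ⟨m, hm⟩ := mem_omega.1 h2
      exact ⟨a, i, m, m + 1, ha, hi, hm, by rw [h3, hm]; rfl, rfl⟩
    · rintro ⟨a, i, m, m', h0, h1, h2, h3, rfl⟩
      refine ⟨by rw [h0]; exact num_mem_omega _, by rw [h1]; exact num_mem_omega _,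
        by rw [h2]; exact num_mem_omega _, ?_⟩
      rw [h3, h2]; rfl
  · intro A hA v hv
    constructor
    · rintro ⟨a, n, m, h0, h1, h2, u, hu0, hus, hun⟩
      refine ⟨a, n, h0, h1, ?_⟩
      have : ∀ i ≤ n, u i = a + i := by
        intro i
        induction i with
        | zero => intro _; rw [hu0]; rfl
        | succ i ih =>
          intro hi
          rw [hus i (by omega), ih (by omega)]
          omega
      rw [h2, ← hun, this n le_rfl]
    · rintro ⟨a, n, h0, h1, h2⟩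
      exact ⟨a, n, a + n, h0, h1, h2, fun i => a + i, rfl, fun i _ => rfl, rfl⟩

theorem d_add (i j k : ℕ) :
    Dfn Base (fun _ v => ∃ a b, v i = num a ∧ v j = num b ∧ v k = num (a + b)) :=
  d_addc.ren (g3 i j k)

theorem d_mulc : Dfn Base (fun _ v => ∃ a b, v 0 = num a ∧ v 1 = num b ∧ v 2 = num (a * b)) := by
  refine (rec' (fun a m => m = 0) (fun a _ m m' => m' = m + a)
    (((d_om 0).and (d_num 0 1)).congr ?_)
    (((d_om 1).and (d_add 2 0 3)).congr ?_)).congr ?_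
  · intro A hA v hv
    constructor
    · rintro ⟨h1, h2⟩
      obtain ⟨a, ha⟩ := mem_omega.1 h1
      exact ⟨a, 0, ha, h2, rfl⟩
    · rintro ⟨a, m, h1, h2, rfl⟩
      exact ⟨by rw [h1]; exact num_mem_omega _, h2⟩
  · intro A hA v hv
    constructor
    · rintro ⟨h1, m, a, h2, h3, h4⟩
      obtain ⟨i, hi⟩ := mem_omega.1 h1
      exact ⟨a, i, m, m + a, h3, hi, h2, h4, rfl⟩
    · rintro ⟨a, i, m, m', h0, h1, h2, h3, rfl⟩
      exact ⟨by rw [h1]; exact num_mem_omega _, m, a, h2, h0, h3⟩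
  · intro A hA v hv
    constructor
    · rintro ⟨a, n, m, h0, h1, h2, u, hu0, hus, hun⟩
      refine ⟨a, n, h0, h1, ?_⟩
      have : ∀ i ≤ n, u i = a * i := by
        intro i
        induction i with
        | zero => intro _; rw [hu0]; rfl
        | succ i ih =>
          intro hi
          rw [hus i (by omega), ih (by omega)]
          ring
      rw [h2, ← hun, this n le_rfl]
    · rintro ⟨a, n, h0, h1, h2⟩
      exact ⟨a, n, a * n, h0, h1, h2, fun i => a * i, rfl, fun i _ => by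
        show a * (i + 1) = a * i + a; ring, rfl⟩

theorem d_mul (i j k : ℕ) :
    Dfn Base (fun _ v => ∃ a b, v i = num a ∧ v j = num b ∧ v k = num (a * b)) :=
  d_mulc.ren (g3 i j k)

theorem pair' : T_PAIR := by
  refine ((d_om 0).and ((d_om 1).and
    (((Dfn.mem 0 1).and (((d_mul 2 2 0).and (d_add 0 1 3)).ex)).or
    ((Dfn.mem 0 1).not.and ((((d_mul 1 1 0).and ((((d_add 1 2 0).and (d_add 0 3 4))).ex)).ex)))))).congr ?_
  intro A hA v hv
  show (v 0 ∈ omega ∧ v 1 ∈ omega ∧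
    ((v 0 ∈ v 1 ∧ ∃ s ∈ A, (∃ a b, v 1 = num a ∧ v 1 = num b ∧ s = num (a * b)) ∧
      (∃ a b, s = num a ∧ v 0 = num b ∧ v 2 = num (a + b))) ∨
    (v 0 ∉ v 1 ∧ ∃ s ∈ A, (∃ a b, v 0 = num a ∧ v 0 = num b ∧ s = num (a * b)) ∧
      ∃ t ∈ A, (∃ a b, s = num a ∧ v 0 = num b ∧ t = num (a + b)) ∧
        (∃ a b, t = num a ∧ v 1 = num b ∧ v 2 = num (a + b))))) ↔ _
  constructor
  · rintro ⟨h0, h1, h⟩
    obtain ⟨a, ha⟩ := mem_omega.1 h0
    obtain ⟨b, hb⟩ := mem_omega.1 h1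
    refine ⟨a, b, ha, hb, ?_⟩
    rw [ha, hb] at h
    rw [num_mem_num] at h
    rcases h with ⟨hab, s, hs, ⟨x, y, hx, hy, rfl⟩, x', y', hx', hy', e⟩ |
      ⟨hab, s, hs, ⟨x, y, hx, hy, rfl⟩, t, ht, ⟨x', y', hx', hy', rfl⟩, x'', y'', hx'', hy'', e⟩
    · rw [num_inj] at hx hy hx' hy'
      rw [e, Nat.pair, if_pos hab, ← hx', ← hy', ← hx, ← hy]
    · rw [num_inj] at hx hy hx' hy' hx'' hy''
      rw [e, Nat.pair, if_neg hab, ← hx'', ← hy'', ← hx', ← hy', ← hx, ← hy]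
  · rintro ⟨a, b, ha, hb, h⟩
    rw [ha, hb, num_mem_num]
    refine ⟨num_mem_omega _, num_mem_omega _, ?_⟩
    by_cases hab : a < b
    · left
      refine ⟨hab, num (b * b), Base.num_mem hA _, ⟨b, b, rfl, rfl, rfl⟩, b * b, a, rfl, rfl, ?_⟩
      rw [h, Nat.pair, if_pos hab]
    · right
      refine ⟨hab, num (a * a), Base.num_mem hA _, ⟨a, a, rfl, rfl, rfl⟩, num (a * a + a),
        Base.num_mem hA _, ⟨a * a, a, rfl, rfl, rfl⟩, a * a + a, b, rfl, rfl, ?_⟩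
      rw [h, Nat.pair, if_neg hab]

theorem d_npair (i j k : ℕ) :
    Dfn Base (fun _ v => ∃ a b, v i = num a ∧ v j = num b ∧ v k = num (Nat.pair a b)) :=
  pair'.ren (g3 i j k)

/-! ### partial recursive functions -/

/-- the graph of a partial function is definable -/
def PG (f : ℕ →. ℕ) : Prop := Dfn Base (fun _ v => ∃ n m, v 0 = num n ∧ v 1 = num m ∧ m ∈ f n)

theorem PG.d {f : ℕ →. ℕ} (h : PG f) (i j : ℕ) :
    Dfn Base (fun _ v => ∃ n m, v i = num n ∧ v j = num m ∧ m ∈ f n) := Dfn.ren (g2 i j) h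

theorem pg_prec {f g : ℕ →. ℕ} (hf : PG f) (hg : PG g) :
    PG (Nat.unpaired fun a n =>
      n.rec (f a) fun y IH => do let i ← IH; g (Nat.pair a (Nat.pair y i))) := by
  have hS : Dfn Base (fun _ v => ∃ a i m m', v 0 = num a ∧ v 1 = num i ∧ v 2 = num m ∧
      v 3 = num m' ∧ m' ∈ g (Nat.pair a (Nat.pair i m))) := by
    refine ((((d_npair 2 3 0).and ((((d_npair 2 1 0)).and (hg.d 0 5)).ex)).ex)).congr ?_
    intro A hA v hv
    show (∃ s ∈ A, (∃ a b, v 1 = num a ∧ v 2 = num b ∧ s = num (Nat.pair a b)) ∧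
      ∃ t ∈ A, (∃ a b, v 0 = num a ∧ s = num b ∧ t = num (Nat.pair a b)) ∧
        (∃ n m, t = num n ∧ v 3 = num m ∧ m ∈ g n)) ↔ _
    constructor
    · rintro ⟨s, hs, ⟨i, m, h1, h2, rfl⟩, t, ht, ⟨a, x, h0, hx, rfl⟩, n, m', hn, h3, hm⟩
      rw [num_inj] at hx hn
      subst hx hn
      exact ⟨a, i, m, m', h0, h1, h2, h3, hm⟩
    · rintro ⟨a, i, m, m', h0, h1, h2, h3, hm⟩
      exact ⟨_, Base.num_mem hA _, ⟨i, m, h1, h2, rfl⟩, _, Base.num_mem hA _,
        ⟨a, _, h0, rfl, rfl⟩, _, m', rfl, h3, hm⟩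
  have hrec := rec' (fun a m => m ∈ f a) (fun a i m m' => m' ∈ g (Nat.pair a (Nat.pair i m))) hf hS
  refine ((((d_npair 1 0 2).and (hrec.ren (g3 1 0 3))).ex).ex).congr ?_
  intro A hA v hv
  show (∃ x ∈ A, ∃ y ∈ A, (∃ a b, x = num a ∧ y = num b ∧ v 0 = num (Nat.pair a b)) ∧
    (∃ a n m, x = num a ∧ y = num n ∧ v 1 = num m ∧ ∃ u : ℕ → ℕ, u 0 ∈ f a ∧
      (∀ i < n, u (i + 1) ∈ g (Nat.pair a (Nat.pair i (u i)))) ∧ u n = m)) ↔ _
  have key : ∀ a n m : ℕ, (∃ u : ℕ → ℕ, u 0 ∈ f a ∧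
      (∀ i < n, u (i + 1) ∈ g (Nat.pair a (Nat.pair i (u i)))) ∧ u n = m) ↔
      m ∈ (Nat.rec (f a) (fun y IH => do let i ← IH; g (Nat.pair a (Nat.pair y i))) n :
        Part ℕ) := by
    intro a n
    induction n with
    | zero =>
      intro m
      constructor
      · rintro ⟨u, h0, -, rfl⟩; exact h0
      · intro h
        exact ⟨fun _ => m, h, fun i hi => absurd hi (Nat.not_lt_zero i), rfl⟩
    | succ n ih =>
      intro m
      constructor
      · rintro ⟨u, h0, hs, rfl⟩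
        have h1 := (ih (u n)).1 ⟨u, h0, fun i hi => hs i (by omega), rfl⟩
        exact Part.mem_bind_iff.2 ⟨u n, h1, hs n (Nat.lt_succ_self n)⟩
      · intro h
        obtain ⟨k, hk, hm⟩ := Part.mem_bind_iff.1 h
        obtain ⟨u, h0, hs, hun⟩ := (ih k).2 hk
        refine ⟨fun i => if i ≤ n then u i else m, ?_, ?_, ?_⟩
        · show (if 0 ≤ n then u 0 else m) ∈ f a
          rw [if_pos (Nat.zero_le n)]; exact h0
        · intro i hi
          show (if i + 1 ≤ n then u (i + 1) else m) ∈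
            g (Nat.pair a (Nat.pair i (if i ≤ n then u i else m)))
          rw [if_pos (by omega : i ≤ n)]
          by_cases h1 : i + 1 ≤ n
          · rw [if_pos h1]; exact hs i (by omega)
          · obtain rfl : i = n := by omega
            rw [if_neg h1, hun]; exact hm
        · show (if n + 1 ≤ n then u (n + 1) else m) = m
          rw [if_neg (by omega)]
  constructor
  · rintro ⟨x, hx, y, hy, ⟨a, b, rfl, rfl, h0⟩, a', n, m, ha, hn, h1, hu⟩
    rw [num_inj] at ha hn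
    subst ha hn
    refine ⟨_, m, h0, h1, ?_⟩
    show m ∈ (Nat.unpaired _ (Nat.pair a b) : Part ℕ)
    rw [Nat.unpaired, Nat.unpair_pair]
    exact (key a b m).1 hu
  · rintro ⟨k, m, h0, h1, hm⟩
    refine ⟨num k.unpair.1, Base.num_mem hA _, num k.unpair.2, Base.num_mem hA _,
      ⟨_, _, rfl, rfl, ?_⟩, _, _, m, rfl, rfl, h1, ?_⟩
    · rw [Nat.pair_unpair]; exact h0
    · exact (key _ _ m).2 hm

theorem pg_rfind {f : ℕ →. ℕ} (hf : PG f) :
    PG (fun a => Nat.rfind fun n => (fun m => m = 0) <$> f (Nat.pair a n)) := by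
  -- `m` is the value: `0 ∈ f (a, m)` and for all `n < m` some nonzero value of `f (a, n)`
  refine ((d_om 0).and ((d_om 1).and
    ((((d_npair 1 2 0).and ((((d_num 0 0).and (hf.d 1 0)).ex))).ex).and
    (((((d_npair 2 1 0).and ((((d_num 0 0).not.and (hf.d 1 0)).ex))).ex).allB 1))))).congr ?_
  intro A hA v hv
  show (v 0 ∈ omega ∧ v 1 ∈ omega ∧
    (∃ s ∈ A, (∃ a b, v 0 = num a ∧ v 1 = num b ∧ s = num (Nat.pair a b)) ∧
      ∃ z ∈ A, z = num 0 ∧ ∃ n m, s = num n ∧ z = num m ∧ m ∈ f n) ∧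
    (∀ w ∈ v 1, ∃ s ∈ A, (∃ a b, v 0 = num a ∧ w = num b ∧ s = num (Nat.pair a b)) ∧
      ∃ z ∈ A, ¬ z = num 0 ∧ ∃ n m, s = num n ∧ z = num m ∧ m ∈ f n)) ↔ _
  constructor
  · rintro ⟨h0, h1, ⟨s, hs, ⟨a, b, ha, hb, rfl⟩, z, hz, rfl, n, m, hn, hm, hmf⟩, hlt⟩
    rw [num_inj] at hn hm
    subst hn hm
    refine ⟨a, b, ha, hb, ?_⟩
    refine Nat.mem_rfind.2 ⟨?_, ?_⟩
    · exact Part.mem_map_iff _ |>.2 ⟨0, hmf, by simp⟩
    · intro k hk
      obtain ⟨s, hs, ⟨a', b', ha', hb', rfl⟩, z, hz, hz0, n', m', hn', rfl, hmf'⟩ :=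
        hlt (num k) (by rw [hb]; exact num_mem_num.2 hk)
      rw [ha, num_inj] at ha'
      rw [num_inj] at hb' hn'
      subst ha' hb' hn'
      refine Part.mem_map_iff _ |>.2 ⟨m', hmf', ?_⟩
      rw [num_inj] at hz0
      simp [hz0]
  · rintro ⟨a, b, ha, hb, h⟩
    obtain ⟨h1, h2⟩ := Nat.mem_rfind.1 h
    refine ⟨by rw [ha]; exact num_mem_omega _, by rw [hb]; exact num_mem_omega _, ?_, ?_⟩
    · obtain ⟨m, hm, hm0⟩ := (Part.mem_map_iff _).1 h1
      have hm0' : m = 0 := by simpa using hm0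
      subst hm0'
      exact ⟨_, Base.num_mem hA _, ⟨a, b, ha, hb, rfl⟩, num 0, Base.num_mem hA _, rfl, _, 0, rfl,
        rfl, hm⟩
    · intro w hw
      rw [hb] at hw
      obtain ⟨k, hk, rfl⟩ := mem_num.1 hw
      obtain ⟨m, hm, hm0⟩ := (Part.mem_map_iff _).1 (h2 hk)
      have hm0' : m ≠ 0 := by simpa using hm0
      exact ⟨_, Base.num_mem hA _, ⟨a, k, ha, rfl, rfl⟩, num m, Base.num_mem hA _,
        fun h => hm0' (num_inj.1 h), _, m, rfl, rfl, hm⟩

theorem pg_all {f : ℕ →. ℕ} (h : Nat.Partrec f) : PG f := by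
  induction h with
  | zero =>
    refine ((d_om 0).and (d_num 0 1)).congr ?_
    intro A hA v hv
    constructor
    · rintro ⟨h1, h2⟩
      obtain ⟨n, hn⟩ := mem_omega.1 h1
      exact ⟨n, 0, hn, h2, Part.mem_some 0⟩
    · rintro ⟨n, m, h1, h2, h3⟩
      rw [Part.mem_some_iff.1 h3] at h2
      exact ⟨by rw [h1]; exact num_mem_omega _, h2⟩
  | succ =>
    refine ((d_om 0).and (d_insert 1 0 0)).congr ?_
    intro A hA v hv
    constructor
    · rintro ⟨h1, h2⟩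
      obtain ⟨n, hn⟩ := mem_omega.1 h1
      exact ⟨n, n + 1, hn, by rw [h2, hn]; rfl, Part.mem_some _⟩
    · rintro ⟨n, m, h1, h2, h3⟩
      rw [Part.mem_some_iff.1 h3] at h2
      exact ⟨by rw [h1]; exact num_mem_omega _, by rw [h2, h1]; rfl⟩
  | left =>
    refine ((d_npair 2 0 1).ex).congr ?_
    intro A hA v hv
    show (∃ b ∈ A, ∃ x y, v 1 = num x ∧ b = num y ∧ v 0 = num (Nat.pair x y)) ↔ _
    constructor
    · rintro ⟨b, hb, x, y, h1, rfl, h2⟩
      refine ⟨_, x, h2, h1, ?_⟩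
      show x ∈ Part.some (Nat.unpair (Nat.pair x y)).1
      rw [Nat.unpair_pair]
      exact Part.mem_some _
    · rintro ⟨n, m, h1, h2, h3⟩
      have h4 := Part.mem_some_iff.1 h3
      refine ⟨num n.unpair.2, Base.num_mem hA _, n.unpair.1, n.unpair.2, ?_, rfl, ?_⟩
      · rw [h2, h4]
      · rw [Nat.pair_unpair]; exact h1
  | right =>
    refine ((d_npair 0 2 1).ex).congr ?_
    intro A hA v hv
    show (∃ b ∈ A, ∃ x y, b = num x ∧ v 1 = num y ∧ v 0 = num (Nat.pair x y)) ↔ _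
    constructor
    · rintro ⟨b, hb, x, y, rfl, h1, h2⟩
      refine ⟨_, y, h2, h1, ?_⟩
      show y ∈ Part.some (Nat.unpair (Nat.pair x y)).2
      rw [Nat.unpair_pair]
      exact Part.mem_some _
    · rintro ⟨n, m, h1, h2, h3⟩
      have h4 := Part.mem_some_iff.1 h3
      refine ⟨num n.unpair.1, Base.num_mem hA _, n.unpair.1, n.unpair.2, rfl, ?_, ?_⟩
      · rw [h2, h4]
      · rw [Nat.pair_unpair]; exact h1
  | @pair f g _ _ hf hg =>
    refine ((((hf.d 2 1).and ((hg.d 2 0).and (d_npair 1 0 3))).ex).ex).congr ?_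
    intro A hA v hv
    show (∃ x ∈ A, ∃ y ∈ A, (∃ n m, v 0 = num n ∧ x = num m ∧ m ∈ f n) ∧
      (∃ n m, v 0 = num n ∧ y = num m ∧ m ∈ g n) ∧
      (∃ a b, x = num a ∧ y = num b ∧ v 1 = num (Nat.pair a b))) ↔ _
    constructor
    · rintro ⟨x, hx, y, hy, ⟨n, m, h0, rfl, hm⟩, ⟨n', m', h0', rfl, hm'⟩, a, b, ha, hb, h1⟩
      rw [h0, num_inj] at h0'
      rw [num_inj] at ha hb
      subst h0' ha hb
      refine ⟨n, _, h0, h1, ?_⟩
      simp only [Seq.seq, Part.mem_bind_iff, Part.map_eq_map, Part.mem_map_iff]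
      exact ⟨_, ⟨m, hm, rfl⟩, m', hm', rfl⟩
    · rintro ⟨n, k, h0, h1, hk⟩
      simp only [Seq.seq, Part.mem_bind_iff, Part.map_eq_map, Part.mem_map_iff] at hk
      obtain ⟨_, ⟨m, hm, rfl⟩, m', hm', rfl⟩ := hk
      exact ⟨num m, Base.num_mem hA _, num m', Base.num_mem hA _, ⟨n, m, h0, rfl, hm⟩,
        ⟨n, m', h0, rfl, hm'⟩, m, m', rfl, rfl, h1⟩
  | @comp f g _ _ hf hg =>
    refine (((hg.d 1 0).and (hf.d 0 2)).ex).congr ?_
    intro A hA v hv
    show (∃ x ∈ A, (∃ n m, v 0 = num n ∧ x = num m ∧ m ∈ g n) ∧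
      (∃ n m, x = num n ∧ v 1 = num m ∧ m ∈ f n)) ↔ _
    constructor
    · rintro ⟨x, hx, ⟨n, m, h0, rfl, hm⟩, n', m', hn, h1, hm'⟩
      rw [num_inj] at hn
      subst hn
      exact ⟨n, m', h0, h1, Part.mem_bind_iff.2 ⟨m, hm, hm'⟩⟩
    · rintro ⟨n, k, h0, h1, hk⟩
      obtain ⟨m, hm, hm'⟩ := Part.mem_bind_iff.1 hk
      exact ⟨num m, Base.num_mem hA _, ⟨n, m, h0, rfl, hm⟩, m, k, rfl, h1, hm'⟩
  | prec _ _ hf hg => exact pg_prec hf hg
  | rfind _ hf => exact pg_rfind hf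

theorem re' : T_RE := by
  intro p hp
  have h1 : Partrec (fun n : ℕ => (Part.assert (p n) fun _ => Part.some ()).map fun _ => 0) :=
    hp.map (Computable.const 0).to₂
  have h2 : Nat.Partrec (fun n : ℕ => (Part.assert (p n) fun _ => Part.some ()).map fun _ => 0) :=
    Partrec.nat_iff.1 h1
  refine ((((d_num 0 0).and ((pg_all h2).d 1 0)).ex)).congr ?_
  intro A hA v hv
  show (∃ z ∈ A, z = num 0 ∧ ∃ n m, v 0 = num n ∧ z = num m ∧
    m ∈ (Part.assert (p n) fun _ => Part.some ()).map fun _ => 0) ↔ _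
  constructor
  · rintro ⟨z, hz, rfl, n, m, h0, hm, hmm⟩
    obtain ⟨x, hx, hx'⟩ := (Part.mem_map_iff _).1 hmm
    obtain ⟨hp', -⟩ := Part.mem_assert_iff.1 hx
    exact ⟨n, h0, hp'⟩
  · rintro ⟨n, h0, hpn⟩
    refine ⟨num 0, Base.num_mem hA _, rfl, n, 0, h0, rfl, ?_⟩
    exact (Part.mem_map_iff _).2 ⟨(), Part.mem_assert_iff.2 ⟨hpn, Part.mem_some ()⟩, rfl⟩

end Pool.Agent.W402.VL.Rec
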